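import Pool.Agent.helper53.ORE.Spec

/-!
# R3O of project ore (MP_561ff4_al): order 3 from two conjugates, elements of odd prime order
-/

set_option autoImplicit false
set_option linter.unusedVariables false

namespace Pool.Agent.ORE

open Module Pool.Agent.GS

open scoped BigOperators

theorem R3O_coprime {V : Type} (y : Equiv.Perm V) (a b : ℕ) (hab : Nat.Coprime a b) (x : V)
    (ha : (y ^ a) x = x) (hb : (y ^ b) x = x) : y x = x := by
  have h1 : Function.IsPeriodicPt y a x := by
    unfold Function.IsPeriodicPt Function.IsFixedPt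
    rw [Equiv.Perm.iterate_eq_pow, ha]
  have h2 : Function.IsPeriodicPt y b x := by
    unfold Function.IsPeriodicPt Function.IsFixedPt
    rw [Equiv.Perm.iterate_eq_pow, hb]
  have h3 := h1.gcd h2
  rw [Nat.Coprime.gcd_eq_one hab] at h3
  unfold Function.IsPeriodicPt Function.IsFixedPt at h3
  rwa [Function.iterate_one] at h3

theorem R3O_sum {F V : Type} [Field F] [AddCommGroup V] [Module F V] {y : Equiv.Perm V}
    (hy : Lin F y) (n : ℕ) (f : ℕ → V) :
    y (∑ i ∈ Finset.range n, f i) = ∑ i ∈ Finset.range n, y (f i) := by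
  have h1 : ∀ v, y v = Ly y hy v := fun v => rfl
  rw [h1, map_sum]
  rfl

/-- The norm element is fixed. -/
theorem R3O_fix {F V : Type} [Field F] [AddCommGroup V] [Module F V] {y : Equiv.Perm V}
    (hy : Lin F y) (l : ℕ) (hl : y ^ l = 1) (v : V) :
    y (∑ i ∈ Finset.range l, (y ^ i) v) = ∑ i ∈ Finset.range l, (y ^ i) v := by
  rw [R3O_sum hy]
  have h1 : ∀ i, y ((y ^ i) v) = (y ^ (i + 1)) v := by
    intro i
    rw [pow_succ', Equiv.Perm.mul_apply]
  simp only [h1]
  have h2 := Finset.sum_range_succ (fun i => (y ^ i) v) l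
  have h3 := Finset.sum_range_succ' (fun i => (y ^ i) v) l
  simp only [hl, pow_zero] at h2 h3
  rw [h2] at h3
  exact (add_right_cancel h3).symm

/-- Inner products of a fixed vector with the norm element. -/
theorem R3O_pbN {F V : Type} [Field F] [AddCommGroup V] [Module F V] {Q : QuadraticForm F V}
    (h2 : (2 : F) = 0) {y : Equiv.Perm V} (hy : y ∈ OQ Q) (l : ℕ) (hl : Odd l)
    (w : V) (hw : y w = w) (v : V) :
    pb Q w (∑ i ∈ Finset.range l, (y ^ i) v) = pb Q w v := by
  have hi : ∀ i : ℕ, (y ^ i) w = w := by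
    intro i
    induction i with
    | zero => rfl
    | succ i ih => rw [pow_succ, Equiv.Perm.mul_apply, hw, ih]
  rw [map_sum]
  have h1 : ∀ i, pb Q w ((y ^ i) v) = pb Q w v := by
    intro i
    have h3 := OQ_pb ((OQ Q).pow_mem hy i) w v
    rw [hi i] at h3
    exact h3
  simp only [h1, Finset.sum_const, Finset.card_range]
  obtain ⟨k, rfl⟩ := hl
  rw [nsmul_eq_mul]
  push_cast
  rw [h2, zero_mul, zero_add, one_mul]

/-- Decomposition of a vector into a fixed vector and a vector orthogonal to all fixed vectors. -/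
theorem R3O_dec {F V : Type} [Field F] [AddCommGroup V] [Module F V] {Q : QuadraticForm F V}
    (h2 : (2 : F) = 0) {y : Equiv.Perm V} (hy : y ∈ OQ Q) (l : ℕ) (hl : Odd l) (hyl : y ^ l = 1)
    (v : V) : ∃ v₀ v₁ : V, v = v₀ + v₁ ∧ y v₀ = v₀ ∧ ∀ w, y w = w → pb Q w v₁ = 0 := by
  refine ⟨∑ i ∈ Finset.range l, (y ^ i) v, v + ∑ i ∈ Finset.range l, (y ^ i) v, ?_, ?_, ?_⟩
  · rw [add_comm v, ← add_assoc, addV h2, zero_add]
  · exact R3O_fix hy.1 l hyl v
  · intro w hw
    rw [map_add, R3O_pbN h2 hy l hl w hw, add2 h2]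

/-- The case `V₀ ≠ 0`. -/
theorem R3O_a {F V : Type} [Field F] [Finite F] [AddCommGroup V] [Module F V]
    [FiniteDimensional F V] (ra : R3A_stmt) (Q : QuadraticForm F V) (h2 : (2 : F) = 0)
    (nd : Nd Q) (hn : 8 ≤ finrank F V) (y : Equiv.Perm V) (hy : y ∈ OQ Q) (hy1 : y ≠ 1) (l : ℕ)
    (hl : Odd l) (hyl : y ^ l = 1) (w : V) (hw0 : w ≠ 0) (hw : y w = w) :
    ∃ z ∈ OmQ Q, Gq Q y 2 z ∧ NS F 3 z := by
  classical
  have dec := R3O_dec h2 hy l hl hyl
  -- a nonsingular fixed vector
  have hb : ∃ b, y b = b ∧ Q b ≠ 0 := by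
    by_contra hcon
    push Not at hcon
    apply hw0
    apply nd
    intro v
    obtain ⟨v₀, v₁, hv, hv0, hv1⟩ := dec v
    rw [hv, map_add, hv1 w hw, add_zero]
    have e1 := Q_add Q w v₀
    have e2 : Q (w + v₀) = 0 := hcon _ (by rw [hy.1.1, hw, hv0])
    rw [e2, hcon w hw, hcon v₀ hv0] at e1
    linear_combination -e1
  obtain ⟨b, hb, hQb⟩ := hb
  -- a vector of `V₁` with `S ≠ 0`
  have ha : ∃ a, (∀ w, y w = w → pb Q w a = 0) ∧ pb Q a (y a) ≠ 0 := by
    by_contra hcon
    push Not at hcon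
    have hV1y : ∀ x, (∀ w, y w = w → pb Q w x = 0) → ∀ w, y w = w → pb Q w (y x) = 0 := by
      intro x hx w hw
      have h3 := OQ_pb hy w x
      rw [hw, hx w hw] at h3
      exact h3
    -- the polar form of `S` on `V₁`
    have hS : ∀ x x', (∀ w, y w = w → pb Q w x = 0) → (∀ w, y w = w → pb Q w x' = 0) →
        pb Q x (y x') + pb Q x' (y x) = 0 := by
      intro x x' hx hx'
      have h3 := hcon (x + x') (by
        intro w hw
        rw [map_add, hx w hw, hx' w hw, add_zero])
      rw [hy.1.1, map_add, map_add, LinearMap.add_apply, LinearMap.add_apply, hcon x hx,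
        hcon x' hx'] at h3
      linear_combination h3
    have hz : ∀ x, (∀ w, y w = w → pb Q w x = 0) → x = 0 := by
      intro x hx
      -- `y (y x) = x`
      have h4 : y (y x) + x = 0 := by
        apply nd
        intro v
        obtain ⟨v₀, v₁, hv, hv0, hv1⟩ := dec v
        have e1 : pb Q (y (y x) + x) v₀ = 0 := by
          rw [pb_symm, map_add, hV1y _ (hV1y x hx) v₀ hv0, hx v₀ hv0, add_zero]
        have hinv : ∃ u, v₁ = y u ∧ ∀ w, y w = w → pb Q w u = 0 := by
          refine ⟨y⁻¹ v₁, (pinv y v₁).symm, ?_⟩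
          intro w hw
          have h5 := OQ_pb hy w (y⁻¹ v₁)
          rw [hw, pinv] at h5
          rw [← h5]
          exact hv1 w hw
        obtain ⟨u, hu, hu1⟩ := hinv
        have e2 : pb Q (y (y x) + x) v₁ = 0 := by
          rw [hu, map_add, LinearMap.add_apply, OQ_pb hy]
          have h6 := hS x u hx hu1
          rw [pb_symm Q (y x) u]
          linear_combination h6
        rw [hv, map_add, e1, e2, add_zero]
      have h5 : y (y x) = x := eq_of_addV h2 h4
      have h6 : y x = x := by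
        refine R3O_coprime y 2 l ?_ x ?_ ?_
        · exact (Nat.coprime_two_left).2 hl
        · rw [pow_two, Equiv.Perm.mul_apply, h5]
        · rw [hyl]
          rfl
      apply nd
      intro v
      obtain ⟨v₀, v₁, hv, hv0, hv1⟩ := dec v
      rw [hv, map_add, hv1 x h6, pb_symm, hx v₀ hv0, add_zero]
    apply hy1
    ext v
    obtain ⟨v₀, v₁, hv, hv0, hv1⟩ := dec v
    rw [hv, hz v₁ hv1, add_zero, hv0]
    rfl
  obtain ⟨a₁, ha1, hSa⟩ := ha
  haveI := charP2 h2
  obtain ⟨c, hc⟩ := FiniteField.isSquare_of_char_two (ringChar.eq F 2) ((pb Q a₁ (y a₁) + Q a₁) / Q b)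
  have hc' : c ^ 2 * Q b = pb Q a₁ (y a₁) + Q a₁ := by
    rw [pow_two, ← hc, div_mul_cancel₀ _ hQb]
  have eQ : Q (a₁ + c • b) = pb Q a₁ (y a₁) := by
    rw [Q_add, Q_smul, hc', map_smul, pb_symm Q a₁ b, ha1 b hb, smul_zero]
    linear_combination (Q a₁) * h2
  have eS : pb Q (a₁ + c • b) (y (a₁ + c • b)) = pb Q a₁ (y a₁) := by
    have h7 : pb Q b (y a₁) = 0 := by
      have h8 := OQ_pb hy b a₁
      rw [hb, ha1 b hb] at h8
      exact h8
    rw [hy.1.1, hy.1.2, hb]
    simp only [map_add, LinearMap.add_apply, map_smul, LinearMap.smul_apply, smul_eq_mul,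
      pb_self2 h2, h7, pb_symm Q a₁ b, ha1 b hb, mul_zero, add_zero]
  refine ra Q h2 nd hn y hy (a₁ + c • b) ?_ ?_
  · rw [eQ]
    exact hSa
  · rw [eQ, eS]

theorem R3O_pbadd {F V : Type} [Field F] [AddCommGroup V] [Module F V]
    (Q Q' : QuadraticForm F V) (x z : V) : pb (Q + Q') x z = pb Q x z + pb Q' x z := by
  have h1 := Q_add (Q + Q') x z
  rw [QuadraticMap.add_apply, QuadraticMap.add_apply, QuadraticMap.add_apply, Q_add Q,
    Q_add Q'] at h1
  linear_combination -h1

theorem R3O (ra : R3A_stmt) (rb : R3B_stmt) (qz : QZ2_stmt) (ns : NSV_stmt) : R3O_stmt := by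
  intro F V _ _ _ _ _ Q h2 nd hn y hy hy1 l hl hl2 hyl
  have hodd : Odd l := hl.odd_of_ne_two hl2
  by_cases h0 : ∃ w, w ≠ 0 ∧ y w = w
  · obtain ⟨w, hw0, hw⟩ := h0
    exact R3O_a ra Q h2 nd hn y hy hy1 l hodd hyl w hw0 hw
  push Not at h0
  have h0' : ∀ w, y w = w → w = 0 := by
    intro w hw
    by_contra hc
    exact h0 w hc hw
  obtain ⟨c, -, hc⟩ := ns Q h2 nd 0 (fun i => 0) (by omega)
  by_cases hl3 : l = 3
  · subst hl3
    have h3 : ∀ v, y (y (y v)) = v := by
      intro v
      have h4 : (y ^ 3) v = v := by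
        rw [hyl]
        rfl
      rwa [pow_succ, pow_two, Equiv.Perm.mul_apply, Equiv.Perm.mul_apply] at h4
    have hs : ∀ v, y (y v) = v + y v := by
      intro v
      have h5 : v + y v + y (y v) = 0 := by
        apply h0'
        rw [hy.1.1, hy.1.1, h3]
        abel
      exact (eq_of_addV h2 h5).symm
    have hS : ∀ v, pb Q v (y v) = Q v := by
      intro v
      have h6 := Q_add Q v (y v)
      rw [← hs, hy.2, hy.2] at h6
      linear_combination -h6 - (Q v) * h2
    refine ra Q h2 nd hn y hy c ?_ (hS c)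
    rw [hc]
    exact one_ne_zero
  · have hcop : Nat.Coprime 3 l := by
      rw [Nat.coprime_primes Nat.prime_three hl]
      exact fun h => hl3 h.symm
    have hndS : Nd (qy Q y hy.1 + Q) := by
      intro x hx
      have h4 : y⁻¹ x + y x + x = 0 := by
        apply nd
        intro z
        have h5 := hx z
        rw [R3O_pbadd, qy_pb] at h5
        rw [map_add, map_add, LinearMap.add_apply, LinearMap.add_apply]
        have h6 := OQ_pb hy (y⁻¹ x) z
        rw [pinv] at h6
        rw [← h6, pb_symm Q (y x) z]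
        exact h5
      have h5 : x + y (y x) + y x = 0 := by
        have h6 : y (y⁻¹ x + y x + x) = y 0 := by rw [h4]
        rw [hy.1.1, hy.1.1, pinv] at h6
        rw [h6]
        have h7 := hy.1.2 0 0
        rwa [zero_smul, zero_smul] at h7
      have h7 : y x + y (y (y x)) + y (y x) = 0 := by
        have h6 : y (x + y (y x) + y x) = y 0 := by rw [h5]
        rw [hy.1.1, hy.1.1] at h6
        rw [h6]
        have h7 := hy.1.2 0 0
        rwa [zero_smul, zero_smul] at h7
      have h8 : y (y (y x)) = x := by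
        apply eq_of_addV h2
        have h9 : (x + y (y x) + y x) + (y x + y (y (y x)) + y (y x)) = 0 := by
          rw [h5, h7, add_zero]
        have h10 : (x + y (y x) + y x) + (y x + y (y (y x)) + y (y x)) =
            (y (y (y x)) + x) + (y x + y x) + (y (y x) + y (y x)) := by abel
        rw [h10, addV h2, addV h2, add_zero, add_zero] at h9
        exact h9
      apply h0'
      refine R3O_coprime y 3 l hcop x ?_ ?_
      · rw [pow_succ, pow_two, Equiv.Perm.mul_apply, Equiv.Perm.mul_apply]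
        exact h8
      · rw [hyl]
        rfl
    by_cases ha : ∃ a, Q a ≠ 0 ∧ pb Q a (y a) = Q a
    · obtain ⟨a, ha0, ha1⟩ := ha
      exact ra Q h2 nd hn y hy a ha0 ha1
    push Not at ha
    obtain ⟨m, hm⟩ := qz Q (qy Q y hy.1 + Q) h2 hndS (by omega) (by
      intro v hv
      by_contra hQ
      apply ha v hQ
      rw [QuadraticMap.add_apply, qy_apply] at hv
      exact eq_of_add2 h2 hv)
    have hm0 : m ≠ 0 := by
      intro h
      have h4 := hm c
      rw [hc, h, zero_mul] at h4
      exact one_ne_zero h4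
    refine rb Q h2 nd hn y hy hy1 (m⁻¹ + 1) ?_
    intro v
    have h4 := hm v
    rw [QuadraticMap.add_apply, qy_apply] at h4
    have h5 : m⁻¹ * Q v = pb Q v (y v) + Q v := by
      rw [h4, ← mul_assoc, inv_mul_cancel₀ hm0, one_mul, ← h4]
    rw [add_mul, one_mul, h5]
    linear_combination -(Q v) * h2

end Pool.Agent.ORE
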